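import Pool.Agent.H588R2.Ram

/-!
A structured language with expressions and bounded loops, compiled to the word RAM, and
rules for its running time.
-/

set_option autoImplicit false

namespace Pool.Agent.TH687.HL

open Pool.Agent.H588R2

/-- Expressions. -/
inductive Ex where
  | c (k : ℕ)
  | r (x : ℕ)
  | add (a b : Ex)
  | sub (a b : Ex)
  | mul (a b : Ex)
  | ld (a : Ex)

/-- Value. -/
def Ex.ev (s : St) : Ex → ℕ
  | .c k => k
  | .r x => s.reg x
  | .add a b => a.ev s + b.ev s
  | .sub a b => a.ev s - b.ev s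
  | .mul a b => a.ev s * b.ev s
  | .ld a => s.mem (a.ev s)

/-- All intermediate values fit in a word. -/
def Ex.ok (w : ℕ) (s : St) : Ex → Prop
  | .c k => k < 2 ^ w
  | .r x => s.reg x < 2 ^ w
  | .add a b => a.ok w s ∧ b.ok w s ∧ a.ev s + b.ev s < 2 ^ w
  | .sub a b => a.ok w s ∧ b.ok w s
  | .mul a b => a.ok w s ∧ b.ok w s ∧ a.ev s * b.ev s < 2 ^ w
  | .ld a => a.ok w s ∧ s.mem (a.ev s) < 2 ^ w

/-- Time. -/
def Ex.cost : Ex → ℕ
  | .c _ => 1
  | .r _ => 2
  | .add a b => a.cost + b.cost + 1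
  | .sub a b => a.cost + b.cost + 1
  | .mul a b => a.cost + b.cost + 1
  | .ld a => a.cost + 1

/-- All registers used are below `100`. -/
def Ex.wf : Ex → Bool
  | .c _ => true
  | .r x => decide (x < 100)
  | .add a b => a.wf && b.wf
  | .sub a b => a.wf && b.wf
  | .mul a b => a.wf && b.wf
  | .ld a => a.wf

/-- Compilation into register `t`, with temporary registers from `t` on. -/
def Ex.comp : Ex → ℕ → Cmd
  | .c k, t => .op (.const t k)
  | .r x, t => .seq (.op (.const t 0)) (.op (.add t x t))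
  | .add a b, t => .seq (a.comp t) (.seq (b.comp (t + 1)) (.op (.add t t (t + 1))))
  | .sub a b, t => .seq (a.comp t) (.seq (b.comp (t + 1)) (.op (.sub t t (t + 1))))
  | .mul a b, t => .seq (a.comp t) (.seq (b.comp (t + 1)) (.op (.mul t t (t + 1))))
  | .ld a, t => .seq (a.comp t) (.op (.load t t))

/-- States that agree on memory and on the registers below `t`. -/
def Agr (t : ℕ) (s s' : St) : Prop := s'.mem = s.mem ∧ ∀ x < t, s'.reg x = s.reg x

theorem Agr.refl (t : ℕ) (s : St) : Agr t s s := ⟨rfl, fun _ _ => rfl⟩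

theorem Agr.trans {t : ℕ} {s s' s'' : St} (h : Agr t s s') (h' : Agr t s' s'') : Agr t s s'' :=
  ⟨h'.1.trans h.1, fun x hx => (h'.2 x hx).trans (h.2 x hx)⟩

theorem Agr.symm {t : ℕ} {s s' : St} (h : Agr t s s') : Agr t s' s :=
  ⟨h.1.symm, fun x hx => (h.2 x hx).symm⟩

theorem Agr.mono {t t' : ℕ} {s s' : St} (h : Agr t s s') (ht : t' ≤ t) : Agr t' s s' :=
  ⟨h.1, fun x hx => h.2 x (by omega)⟩

theorem Agr.set {t d : ℕ} {s s' : St} (h : Agr t s s') (v : ℕ) (hd : t ≤ d) :
    Agr t s (s'.set d v) :=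
  ⟨h.1, fun x hx => by rw [St.set_reg_ne _ _ (by omega)]; exact h.2 x hx⟩

theorem Ex.ev_agr {s s' : St} (h : Agr 100 s s') : ∀ e : Ex, e.wf = true → e.ev s' = e.ev s := by
  intro e
  induction e with
  | c k => intro _; rfl
  | r x => intro hx; simp only [Ex.wf, decide_eq_true_eq] at hx; exact h.2 x hx
  | add a b iha ihb =>
    intro hw; simp only [Ex.wf, Bool.and_eq_true] at hw
    simp only [Ex.ev, iha hw.1, ihb hw.2]
  | sub a b iha ihb =>
    intro hw; simp only [Ex.wf, Bool.and_eq_true] at hw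
    simp only [Ex.ev, iha hw.1, ihb hw.2]
  | mul a b iha ihb =>
    intro hw; simp only [Ex.wf, Bool.and_eq_true] at hw
    simp only [Ex.ev, iha hw.1, ihb hw.2]
  | ld a iha =>
    intro hw; simp only [Ex.wf] at hw
    simp only [Ex.ev, iha hw, h.1]

theorem Ex.ok_agr {w : ℕ} {s s' : St} (h : Agr 100 s s') :
    ∀ e : Ex, e.wf = true → e.ok w s → e.ok w s' := by
  intro e
  induction e with
  | c k => intro _ h; exact h
  | r x => intro hx; simp only [Ex.wf, decide_eq_true_eq] at hx; simp only [Ex.ok, h.2 x hx, imp_self]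
  | add a b iha ihb =>
    intro hw; simp only [Ex.wf, Bool.and_eq_true] at hw
    simp only [Ex.ok, Ex.ev_agr h a hw.1, Ex.ev_agr h b hw.2]
    rintro ⟨h1, h2, h3⟩
    exact ⟨iha hw.1 h1, ihb hw.2 h2, h3⟩
  | sub a b iha ihb =>
    intro hw; simp only [Ex.wf, Bool.and_eq_true] at hw
    simp only [Ex.ok]
    rintro ⟨h1, h2⟩
    exact ⟨iha hw.1 h1, ihb hw.2 h2⟩
  | mul a b iha ihb =>
    intro hw; simp only [Ex.wf, Bool.and_eq_true] at hw
    simp only [Ex.ok, Ex.ev_agr h a hw.1, Ex.ev_agr h b hw.2]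
    rintro ⟨h1, h2, h3⟩
    exact ⟨iha hw.1 h1, ihb hw.2 h2, h3⟩
  | ld a iha =>
    intro hw; simp only [Ex.wf] at hw
    simp only [Ex.ok, Ex.ev_agr h a hw, h.1]
    rintro ⟨h1, h2⟩
    exact ⟨iha hw h1, h2⟩

theorem Ex.ev_lt {w : ℕ} {s : St} : ∀ e : Ex, e.ok w s → e.ev s < 2 ^ w := by
  intro e
  induction e with
  | c k => intro h; exact h
  | r x => intro h; exact h
  | add a b _ _ => intro h; exact h.2.2
  | sub a b iha _ => intro h; exact lt_of_le_of_lt (Nat.sub_le _ _) (iha h.1)
  | mul a b _ _ => intro h; exact h.2.2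
  | ld a _ => intro h; exact h.2

theorem Ex.runs {w : ℕ} : ∀ (e : Ex) (s : St) (t : ℕ), 100 ≤ t → e.wf = true → e.ok w s →
    ∀ {Q : St → ℕ → Prop}, (∀ s', Agr t s s' → s'.reg t = e.ev s → Q s' e.cost) →
    Runs w (e.comp t) s Q := by
  intro e
  induction e with
  | c k =>
    intro s t ht _ hok Q hQ
    apply Runs.const hok
    exact hQ _ ((Agr.refl t s).set _ le_rfl) (by simp [Ex.ev])
  | r x =>
    intro s t ht hwf hok Q hQ
    simp only [Ex.wf, decide_eq_true_eq] at hwf
    simp only [Ex.ok] at hok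
    apply Runs.seq
    apply Runs.const (by positivity)
    have e1 : (s.set t 0).reg x = s.reg x := St.set_reg_ne _ _ (by omega)
    apply Runs.add
    · simp [e1, hok]
    · apply hQ
      · exact ((Agr.refl t s).set _ le_rfl).set _ le_rfl
      · simp [Ex.ev, e1]
  | add a b iha ihb =>
    intro s t ht hwf hok Q hQ
    simp only [Ex.wf, Bool.and_eq_true] at hwf
    apply Runs.seq
    apply iha s t ht hwf.1 hok.1
    intro s1 h1 v1
    apply Runs.seq
    apply ihb s1 (t + 1) (by omega) hwf.2 (Ex.ok_agr (h1.mono ht) b hwf.2 hok.2.1)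
    intro s2 h2 v2
    rw [Ex.ev_agr (h1.mono ht) b hwf.2] at v2
    have v1' : s2.reg t = a.ev s := by rw [h2.2 t (by omega), v1]
    apply Runs.add
    · rw [v1', v2]; exact hok.2.2
    · rw [v1', v2]
      have := hQ (s2.set t (a.ev s + b.ev s)) ((h1.trans (h2.mono (by omega))).set _ le_rfl)
        (by simp [Ex.ev])
      simpa [Ex.cost, add_assoc] using this
  | sub a b iha ihb =>
    intro s t ht hwf hok Q hQ
    simp only [Ex.wf, Bool.and_eq_true] at hwf
    apply Runs.seq
    apply iha s t ht hwf.1 hok.1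
    intro s1 h1 v1
    apply Runs.seq
    apply ihb s1 (t + 1) (by omega) hwf.2 (Ex.ok_agr (h1.mono ht) b hwf.2 hok.2)
    intro s2 h2 v2
    rw [Ex.ev_agr (h1.mono ht) b hwf.2] at v2
    have v1' : s2.reg t = a.ev s := by rw [h2.2 t (by omega), v1]
    apply Runs.sub
    · rw [v1', v2]; exact lt_of_le_of_lt (Nat.sub_le _ _) (Ex.ev_lt a hok.1)
    · rw [v1', v2]
      have := hQ (s2.set t (a.ev s - b.ev s)) ((h1.trans (h2.mono (by omega))).set _ le_rfl)
        (by simp [Ex.ev])
      simpa [Ex.cost, add_assoc] using this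
  | mul a b iha ihb =>
    intro s t ht hwf hok Q hQ
    simp only [Ex.wf, Bool.and_eq_true] at hwf
    apply Runs.seq
    apply iha s t ht hwf.1 hok.1
    intro s1 h1 v1
    apply Runs.seq
    apply ihb s1 (t + 1) (by omega) hwf.2 (Ex.ok_agr (h1.mono ht) b hwf.2 hok.2.1)
    intro s2 h2 v2
    rw [Ex.ev_agr (h1.mono ht) b hwf.2] at v2
    have v1' : s2.reg t = a.ev s := by rw [h2.2 t (by omega), v1]
    apply Runs.mul
    · rw [v1', v2]; exact hok.2.2
    · rw [v1', v2]
      have := hQ (s2.set t (a.ev s * b.ev s)) ((h1.trans (h2.mono (by omega))).set _ le_rfl)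
        (by simp [Ex.ev])
      simpa [Ex.cost, add_assoc] using this
  | ld a iha =>
    intro s t ht hwf hok Q hQ
    simp only [Ex.wf] at hwf
    apply Runs.seq
    apply iha s t ht hwf hok.1
    intro s1 h1 v1
    apply Runs.load
    · rw [v1, h1.1]; exact hok.2
    · rw [v1, h1.1]
      have := hQ (s1.set t (s.mem (a.ev s))) (h1.set _ le_rfl) (by simp [Ex.ev])
      simpa [Ex.cost, add_assoc] using this

/-- Structured commands. -/
inductive HC where
  | skip
  | asg (x : ℕ) (e : Ex)
  | sto (a e : Ex)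
  | seq (c d : HC)
  | ite (a b : Ex) (c d : HC)
  | loop (x b : ℕ) (c : HC)

/-- Registers written. -/
def HC.wr : HC → List ℕ
  | .skip => []
  | .asg x _ => [x]
  | .sto _ _ => []
  | .seq c d => c.wr ++ d.wr
  | .ite _ _ c d => c.wr ++ d.wr
  | .loop x _ c => x :: c.wr

/-- Well-formed: registers below `100`; the loop variable and bound are not changed in the
loop. -/
def HC.wf : HC → Bool
  | .skip => true
  | .asg x e => decide (x < 100) && e.wf
  | .sto a e => a.wf && e.wf
  | .seq c d => c.wf && d.wf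
  | .ite a b c d => a.wf && b.wf && c.wf && d.wf
  | .loop x b c => decide (x < 100) && decide (b < 100) && decide (x ≠ b) && c.wf &&
      !(c.wr.contains x) && !(c.wr.contains b)

/-- Write to memory. -/
def put (s : St) (a v : ℕ) : St := ⟨s.reg, Function.update s.mem a v⟩

/-- Effect. -/
def HC.exec : HC → St → St
  | .skip, s => s
  | .asg x e, s => s.set x (e.ev s)
  | .sto a e, s => put s (a.ev s) (e.ev s)
  | .seq c d, s => d.exec (c.exec s)
  | .ite a b c d, s => if a.ev s < b.ev s then c.exec s else d.exec s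
  | .loop x b c, s =>
      Nat.rec (s.set x 0) (fun i s' => (c.exec s').set x (i + 1)) (s.reg b)

/-- State before iteration `i` of a loop with variable `x` and body `f`. -/
def iter (f : St → St) (x : ℕ) (s : St) (i : ℕ) : St :=
  Nat.rec (s.set x 0) (fun i s' => (f s').set x (i + 1)) i

theorem iter_zero (f : St → St) (x : ℕ) (s : St) : iter f x s 0 = s.set x 0 := rfl

theorem iter_succ (f : St → St) (x : ℕ) (s : St) (i : ℕ) :
    iter f x s (i + 1) = (f (iter f x s i)).set x (i + 1) := rfl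

/-- Time. -/
def HC.time : HC → St → ℕ
  | .skip, _ => 0
  | .asg _ e, _ => e.cost + 2
  | .sto a e, _ => a.cost + e.cost + 1
  | .seq c d, s => c.time s + d.time (c.exec s)
  | .ite a b c d, s => a.cost + b.cost + 1 + (if a.ev s < b.ev s then c.time s else d.time s + 1)
  | .loop x b c, s =>
      (∑ i ∈ Finset.range (s.reg b), (c.time (iter c.exec x s i) + 4)) + 3

/-- All values fit in words. -/
def HC.ok (w : ℕ) : HC → St → Prop
  | .skip, _ => True
  | .asg _ e, s => e.ok w s
  | .sto a e, s => a.ok w s ∧ e.ok w s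
  | .seq c d, s => c.ok w s ∧ d.ok w (c.exec s)
  | .ite a b c d, s => a.ok w s ∧ b.ok w s ∧ (if a.ev s < b.ev s then c.ok w s else d.ok w s)
  | .loop x b c, s => s.reg b < 2 ^ w ∧ 1 < 2 ^ w ∧
      ∀ i < s.reg b, c.ok w (iter c.exec x s i)

/-- Compilation. -/
def HC.comp : HC → Cmd
  | .skip => .skip
  | .asg x e => .seq (e.comp 100) (.seq (.op (.const x 0)) (.op (.add x 100 x)))
  | .sto a e => .seq (a.comp 100) (.seq (e.comp 101) (.op (.store 100 101)))
  | .seq c d => .seq c.comp d.comp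
  | .ite a b c d => .seq (a.comp 100) (.seq (b.comp 101) (.ite 100 101 c.comp d.comp))
  | .loop x b c => .seq (.op (.const x 0)) (.loop x b
      (.seq c.comp (.seq (.op (.const 100 1)) (.op (.add x x 100)))))

end Pool.Agent.TH687.HL
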