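import Pool.Agent.TH687.HL

/-!
Correctness of the compilation, and Hoare-style rules.
-/

set_option autoImplicit false

namespace Pool.Agent.TH687.HL

open Pool.Agent.H588R2

theorem put_agr {s s' : St} (h : Agr 100 s s') (a v : ℕ) : Agr 100 (put s a v) (put s' a v) :=
  ⟨by simp only [put, h.1], fun x hx => h.2 x hx⟩

theorem set_agr {s s' : St} (h : Agr 100 s s') (x v : ℕ) : Agr 100 (s.set x v) (s'.set x v) :=
  ⟨h.1, fun y hy => by
    by_cases e : y = x
    · subst e; simp
    · rw [St.set_reg_ne _ _ e, St.set_reg_ne _ _ e]; exact h.2 y hy⟩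

/-- Registers that are not written keep their values. -/
theorem HC.frame (c : HC) : ∀ (s : St) (y : ℕ), y ∉ c.wr → (c.exec s).reg y = s.reg y := by
  induction c with
  | skip => intro s y _; rfl
  | asg x e =>
    intro s y hy
    simp only [HC.wr, List.mem_singleton] at hy
    exact St.set_reg_ne _ _ hy
  | sto a e => intro s y _; rfl
  | seq c d ihc ihd =>
    intro s y hy
    simp only [HC.wr, List.mem_append, not_or] at hy
    simp only [HC.exec]
    rw [ihd _ _ hy.2, ihc _ _ hy.1]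
  | ite a b c d ihc ihd =>
    intro s y hy
    simp only [HC.wr, List.mem_append, not_or] at hy
    simp only [HC.exec]
    split_ifs
    · exact ihc _ _ hy.1
    · exact ihd _ _ hy.2
  | loop x b c ih =>
    intro s y hy
    simp only [HC.wr, List.mem_cons, not_or] at hy
    simp only [HC.exec]
    generalize s.reg b = N
    induction N with
    | zero => exact St.set_reg_ne _ _ hy.1
    | succ i ih' =>
      show ((c.exec _).set x (i + 1)).reg y = _
      rw [St.set_reg_ne _ _ hy.1, ih _ _ hy.2]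
      exact ih'

theorem HC.sim {w : ℕ} (c : HC) : ∀ (s s0 : St), c.wf = true → c.ok w s → Agr 100 s s0 →
    Runs w c.comp s0 (fun s1 t => Agr 100 (c.exec s) s1 ∧ t = c.time s) := by
  induction c with
  | skip => intro s s0 _ _ h; exact Runs.skip ⟨h, rfl⟩
  | asg x e =>
    intro s s0 hwf hok h
    simp only [HC.wf, Bool.and_eq_true, decide_eq_true_eq] at hwf
    apply Runs.seq
    apply Ex.runs e s0 100 le_rfl hwf.2 (Ex.ok_agr h e hwf.2 hok)
    intro s1 h1 v1
    rw [Ex.ev_agr h e hwf.2] at v1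
    apply Runs.seq
    apply Runs.const (by positivity)
    apply Runs.add
    · rw [St.set_reg_self, St.set_reg_ne _ _ (by omega), v1]
      have := Ex.ev_lt e hok
      omega
    · rw [St.set_reg_self, St.set_reg_ne _ _ (by omega), v1]
      constructor
      · simp only [HC.exec]
        refine ⟨?_, ?_⟩
        · simp only [St.set_mem]; rw [h1.1, h.1]
        · intro y hy
          by_cases e' : y = x
          · subst e'; simp
          · rw [St.set_reg_ne _ _ e', St.set_reg_ne _ _ e', St.set_reg_ne _ _ e', h1.2 y hy,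
              h.2 y hy]
      · simp [HC.time]
  | sto a e =>
    intro s s0 hwf hok h
    simp only [HC.wf, Bool.and_eq_true] at hwf
    apply Runs.seq
    apply Ex.runs a s0 100 le_rfl hwf.1 (Ex.ok_agr h a hwf.1 hok.1)
    intro s1 h1 v1
    rw [Ex.ev_agr h a hwf.1] at v1
    have h01 : Agr 100 s s1 := h.trans h1
    apply Runs.seq
    apply Ex.runs e s1 101 (by omega) hwf.2 (Ex.ok_agr h01 e hwf.2 hok.2)
    intro s2 h2 v2
    rw [Ex.ev_agr h01 e hwf.2] at v2
    have v1' : s2.reg 100 = a.ev s := by rw [h2.2 100 (by omega), v1]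
    apply Runs.op
    constructor
    · simp only [Op.exec, HC.exec, v1', v2]
      refine ⟨?_, ?_⟩
      · simp only [put]; rw [h2.1, h1.1, h.1]
      · intro y hy; simp only [put]
        rw [h2.2 y (by omega), h1.2 y hy, h.2 y hy]
    · simp [HC.time, add_assoc]
  | seq c d ihc ihd =>
    intro s s0 hwf hok h
    simp only [HC.wf, Bool.and_eq_true] at hwf
    apply Runs.seq
    refine (ihc s s0 hwf.1 hok.1 h).mono ?_
    rintro s1 t ⟨h1, ht⟩
    refine (ihd _ s1 hwf.2 hok.2 h1).mono ?_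
    rintro s2 t' ⟨h2, ht'⟩
    exact ⟨h2, by rw [ht, ht']; rfl⟩
  | ite a b c d ihc ihd =>
    intro s s0 hwf hok h
    simp only [HC.wf, Bool.and_eq_true] at hwf
    obtain ⟨⟨⟨hwa, hwb⟩, hwc⟩, hwd⟩ := hwf
    obtain ⟨hoa, hob, hoc⟩ := hok
    apply Runs.seq
    apply Ex.runs a s0 100 le_rfl hwa (Ex.ok_agr h a hwa hoa)
    intro s1 h1 v1
    rw [Ex.ev_agr h a hwa] at v1
    have h01 : Agr 100 s s1 := h.trans h1
    apply Runs.seq
    apply Ex.runs b s1 101 (by omega) hwb (Ex.ok_agr h01 b hwb hob)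
    intro s2 h2 v2
    rw [Ex.ev_agr h01 b hwb] at v2
    have h02 : Agr 100 s s2 := h01.trans (h2.mono (by omega))
    have v1' : s2.reg 100 = a.ev s := by rw [h2.2 100 (by omega), v1]
    apply Runs.ite
    · intro hlt
      rw [v1', v2] at hlt
      rw [if_pos hlt] at hoc
      refine (ihc s s2 hwc hoc h02).mono ?_
      rintro s3 t ⟨h3, ht⟩
      simp only [HC.exec, HC.time, if_pos hlt]
      exact ⟨h3, by rw [ht]; omega⟩
    · intro hlt
      rw [v1', v2] at hlt
      rw [if_neg hlt] at hoc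
      refine (ihd s s2 hwd hoc h02).mono ?_
      rintro s3 t ⟨h3, ht⟩
      simp only [HC.exec, HC.time, if_neg hlt]
      exact ⟨h3, by rw [ht]; omega⟩
  | loop x b c ih =>
    intro s s0 hwf hok h
    simp only [HC.wf, Bool.and_eq_true, decide_eq_true_eq, Bool.not_eq_true',
      List.contains_eq_mem, decide_eq_false_iff_not] at hwf
    obtain ⟨⟨⟨⟨⟨hx, hb⟩, hxb⟩, hwc⟩, hxc⟩, hbc⟩ := hwf
    obtain ⟨hob, h1w, hoc⟩ := hok
    have hix : ∀ i, (iter c.exec x s i).reg x = i := by
      intro i; cases i with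
      | zero => simp [iter_zero]
      | succ i => simp [iter_succ]
    have hib : ∀ i, (iter c.exec x s i).reg b = s.reg b := by
      intro i; induction i with
      | zero => rw [iter_zero, St.set_reg_ne _ _ (fun h => hxb h.symm)]
      | succ i ih' =>
        rw [iter_succ, St.set_reg_ne _ _ (fun h => hxb h.symm), HC.frame c _ _ hbc, ih']
    apply Runs.seq
    apply Runs.const (by positivity)
    refine Runs.loop (s.reg b) (fun q s' τ => Agr 100 (iter c.exec x s q) s' ∧
      τ = ∑ i ∈ Finset.range q, (c.time (iter c.exec x s i) + 4)) ?_ ?_ ?_ ?_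
    · rintro q s' τ hq ⟨h', hτ⟩
      have ex : s'.reg x = q := by rw [h'.2 x hx, hix]
      have eb : s'.reg b = s.reg b := by rw [h'.2 b hb, hib]
      refine ⟨by rw [ex, eb]; exact hq, ?_⟩
      apply Runs.seq
      refine (ih _ s' hwc (hoc q hq) h').mono ?_
      rintro s2 t ⟨h2, ht⟩
      apply Runs.seq
      apply Runs.const h1w
      have e1 : (s2.set 100 1).reg x = q := by
        rw [St.set_reg_ne _ _ (by omega), h2.2 x hx, HC.frame c _ _ hxc, hix]
      apply Runs.add
      · rw [e1, St.set_reg_self]; omega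
      · rw [e1, St.set_reg_self]
        refine ⟨?_, ?_⟩
        · rw [iter_succ]
          exact set_agr (h2.set _ le_rfl) x (q + 1)
        · rw [Finset.sum_range_succ, ht, hτ]
    · rintro s' τ ⟨h', _⟩
      have ex : s'.reg x = s.reg b := by rw [h'.2 x hx, hix]
      have eb : s'.reg b = s.reg b := by rw [h'.2 b hb, hib]
      rw [ex, eb]; exact lt_irrefl _
    · exact ⟨by rw [iter_zero]; exact set_agr h x 0, by simp⟩
    · rintro s' τ ⟨h', hτ⟩
      refine ⟨h', ?_⟩
      simp only [HC.time]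
      rw [hτ]; omega

/-- The command runs without overflow, in time at most `T`, and the final state satisfies `Q`. -/
def Tr (w : ℕ) (c : HC) (s : St) (T : ℕ) (Q : St → Prop) : Prop :=
  c.ok w s ∧ c.time s ≤ T ∧ Q (c.exec s)

theorem Tr.mono {w : ℕ} {c : HC} {s : St} {T T' : ℕ} {Q Q' : St → Prop} (h : Tr w c s T Q)
    (hT : T ≤ T') (hQ : ∀ s', Q s' → Q' s') : Tr w c s T' Q' :=
  ⟨h.1, h.2.1.trans hT, hQ _ h.2.2⟩

/-- Unwritten registers may be assumed to be unchanged. -/
theorem Tr.fr {w : ℕ} {c : HC} {s : St} {T T' : ℕ} {Q Q' : St → Prop} (h : Tr w c s T Q)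
    (hT : T ≤ T') (hQ : ∀ s', Q s' → (∀ y, y ∉ c.wr → s'.reg y = s.reg y) → Q' s') :
    Tr w c s T' Q' :=
  ⟨h.1, h.2.1.trans hT, hQ _ h.2.2 (fun y hy => HC.frame c s y hy)⟩

theorem Tr.skip {w : ℕ} {s : St} {T : ℕ} {Q : St → Prop} (h : Q s) : Tr w .skip s T Q :=
  ⟨trivial, Nat.zero_le _, h⟩

theorem Tr.asg {w x : ℕ} {e : Ex} {s : St} {T : ℕ} {Q : St → Prop} (hok : e.ok w s)
    (hT : e.cost + 2 ≤ T) (h : Q (s.set x (e.ev s))) : Tr w (.asg x e) s T Q :=
  ⟨hok, hT, h⟩

theorem Tr.sto {w : ℕ} {a e : Ex} {s : St} {T : ℕ} {Q : St → Prop} (hoa : a.ok w s)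
    (hoe : e.ok w s) (hT : a.cost + e.cost + 1 ≤ T) (h : Q (put s (a.ev s) (e.ev s))) :
    Tr w (.sto a e) s T Q :=
  ⟨⟨hoa, hoe⟩, hT, h⟩

theorem Tr.seq {w : ℕ} {c d : HC} {s : St} {T T' : ℕ} {Q : St → Prop}
    (h : Tr w c s T (fun s' => Tr w d s' T' Q)) : Tr w (.seq c d) s (T + T') Q :=
  ⟨⟨h.1, h.2.2.1⟩, Nat.add_le_add h.2.1 h.2.2.2.1, h.2.2.2.2⟩

theorem Tr.ite {w : ℕ} {a b : Ex} {c d : HC} {s : St} {T T' : ℕ} {Q : St → Prop}
    (hoa : a.ok w s) (hob : b.ok w s) (hT : a.cost + b.cost + 2 + T ≤ T')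
    (h1 : a.ev s < b.ev s → Tr w c s T Q) (h2 : ¬ a.ev s < b.ev s → Tr w d s T Q) :
    Tr w (.ite a b c d) s T' Q := by
  by_cases hlt : a.ev s < b.ev s
  · obtain ⟨h, h', h''⟩ := h1 hlt
    refine ⟨⟨hoa, hob, by rw [if_pos hlt]; exact h⟩, ?_, ?_⟩
    · simp only [HC.time, if_pos hlt]; omega
    · simp only [HC.exec, if_pos hlt]; exact h''
  · obtain ⟨h, h', h''⟩ := h2 hlt
    refine ⟨⟨hoa, hob, by rw [if_neg hlt]; exact h⟩, ?_, ?_⟩
    · simp only [HC.time, if_neg hlt]; omega
    · simp only [HC.exec, if_neg hlt]; exact h''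

/-- Loop rule. `I i s'` holds before iteration `i`. The registers not written by the loop may be
assumed unchanged in the body. -/
theorem Tr.loop {w x b : ℕ} {c : HC} {s : St} {T N : ℕ} {Q : St → Prop} (I : ℕ → St → Prop)
    (τ : ℕ) (hN : s.reg b = N) (hNw : N < 2 ^ w) (hw : 1 < 2 ^ w)
    (hT : N * (τ + 4) + 3 ≤ T)
    (h0 : I 0 (s.set x 0))
    (hstep : ∀ i < N, ∀ s', I i s' → s'.reg x = i →
      (∀ y, y ≠ x → y ∉ c.wr → s'.reg y = s.reg y) →
      Tr w c s' τ (fun s'' => I (i + 1) (s''.set x (i + 1))))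
    (hQ : ∀ s', I N s' → s'.reg x = N → (∀ y, y ≠ x → y ∉ c.wr → s'.reg y = s.reg y) → Q s') :
    Tr w (.loop x b c) s T Q := by
  have key : ∀ i, i ≤ N → I i (iter c.exec x s i) ∧ (iter c.exec x s i).reg x = i ∧
      (∀ y, y ≠ x → y ∉ c.wr → (iter c.exec x s i).reg y = s.reg y) := by
    intro i
    induction i with
    | zero =>
      intro _
      exact ⟨h0, by simp [iter_zero], fun y hy _ => by rw [iter_zero, St.set_reg_ne _ _ hy]⟩
    | succ i ih =>
      intro hi
      obtain ⟨a1, a2, a3⟩ := ih (by omega)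
      have := hstep i (by omega) _ a1 a2 a3
      refine ⟨this.2.2, by simp [iter_succ], ?_⟩
      intro y hy hyc
      rw [iter_succ, St.set_reg_ne _ _ hy, HC.frame c _ _ hyc]
      exact a3 y hy hyc
  refine ⟨⟨by rw [hN]; exact hNw, hw, ?_⟩, ?_, ?_⟩
  · rw [hN]
    intro i hi
    obtain ⟨a1, a2, a3⟩ := key i (by omega)
    exact (hstep i hi _ a1 a2 a3).1
  · simp only [HC.time]
    rw [hN]
    refine le_trans (Nat.add_le_add_right ?_ 3) hT
    calc ∑ i ∈ Finset.range N, (c.time (iter c.exec x s i) + 4)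
        ≤ ∑ i ∈ Finset.range N, (τ + 4) := by
          apply Finset.sum_le_sum
          intro i hi
          rw [Finset.mem_range] at hi
          obtain ⟨a1, a2, a3⟩ := key i (by omega)
          have := (hstep i hi _ a1 a2 a3).2.1
          omega
      _ = N * (τ + 4) := by simp
  · obtain ⟨a1, a2, a3⟩ := key N le_rfl
    have : (HC.loop x b c).exec s = iter c.exec x s N := by
      simp only [HC.exec, hN]; rfl
    rw [this]
    exact hQ _ a1 a2 a3

/-- From the structured language to the machine. -/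
theorem Tr.halts {w : ℕ} {c : HC} {s : St} {T out : ℕ} {Q : St → Prop} (hwf : c.wf = true)
    (h : Tr w c s T Q) (hQ : ∀ s', Q s' → s'.reg 0 = out) (X : ℝ) (hX : (T : ℝ) ≤ X) :
    HaltsWithin w (c.comp.compile 0) ⟨0, s⟩ X out := by
  obtain ⟨hok, ht, hq⟩ := h
  obtain ⟨s1, t, he, h1, h2⟩ := HC.sim c s s hwf hok (Agr.refl _ _)
  have hc := compile_correct w (c.comp.compile 0) he 0 (by intro i _; simp)
  refine ⟨t, ?_, ?_, ?_⟩
  · rw [h2]
    exact le_trans (by exact_mod_cast ht) hX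
  · rw [hc]
    right
    simp only [Nat.zero_add]
    rw [List.getElem?_eq_none_iff, Cmd.length_compile]
  · rw [hc, h1.2 0 (by norm_num)]
    exact hQ _ hq

end Pool.Agent.TH687.HL
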